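import Pool.Agent.H22.PDP4

open Pool.Agent.H38.NP Pool.Agent.H22.PDP

theorem Pool.Agent.Results.MP_f8c24f_lc.Hard.result :
    NPHardOn (fun I => Valid I ∧ OnFaces 3 I) Solvable :=
  main
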